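import Mathlib

/-!
# Real zero polynomials: basic definitions and lemmas
-/

namespace Pool.Agent.V5helper90.RZ

open MvPolynomial

/-- A real polynomial `f` is a real zero polynomial if for all real points `a` and all complex `l`
with `f (l a) = 0` the number `l` is real. -/
def RealZero {σ : Type*} (f : MvPolynomial σ ℝ) : Prop :=
  ∀ (a : σ → ℝ) (l : ℂ), aeval (fun i => l * (a i : ℂ)) f = 0 → l.im = 0

/-- Laguerre's inequality for a real polynomial all whose complex zeros are real. -/
theorem laguerre (n : ℕ) : ∀ P : Polynomial ℝ, P.natDegree = n →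
    (∀ z : ℂ, Polynomial.aeval z P = 0 → z.im = 0) → ∀ x : ℝ,
    P.eval x * P.derivative.derivative.eval x ≤ (P.derivative.eval x) ^ 2 := by
  induction n with
  | zero =>
    intro P hP _ x
    rw [Polynomial.eq_C_of_natDegree_eq_zero hP]
    simp
  | succ n ih =>
    intro P hP hz x
    have hdeg : 0 < P.natDegree := by omega
    obtain ⟨z, hz0⟩ := IsAlgClosed.exists_aeval_eq_zero ℂ P (by
      intro h
      rw [Polynomial.degree_eq_natDegree (by rintro rfl; simp at hdeg)] at h
      norm_cast at h
      omega)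
    have him := hz z hz0
    have hzre : z = ((z.re : ℝ) : ℂ) := by
      apply Complex.ext <;> simp [him]
    have hroot : P.IsRoot z.re := by
      have h1 : Polynomial.aeval ((z.re : ℝ) : ℂ) P = 0 := by rw [← hzre]; exact hz0
      have h2 : Polynomial.aeval (algebraMap ℝ ℂ z.re) P = 0 := by simpa using h1
      rw [Polynomial.aeval_algebraMap_apply] at h2
      have h3 : (Polynomial.aeval z.re P : ℝ) = 0 :=
        (map_eq_zero (algebraMap ℝ ℂ)).mp h2
      simpa [Polynomial.IsRoot, Polynomial.coe_aeval_eq_eval] using h3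
    obtain ⟨Q, hQ⟩ := Polynomial.dvd_iff_isRoot.mpr hroot
    have hQ0 : Q ≠ 0 := by
      rintro rfl
      rw [hQ] at hdeg
      simp at hdeg
    have hQn : Q.natDegree = n := by
      have := Polynomial.natDegree_mul (Polynomial.X_sub_C_ne_zero z.re) hQ0
      rw [← hQ, hP, Polynomial.natDegree_X_sub_C] at this
      omega
    have hQz : ∀ w : ℂ, Polynomial.aeval w Q = 0 → w.im = 0 := by
      intro w hw
      apply hz w
      rw [hQ, map_mul, hw, mul_zero]
    have key := ih Q hQn hQz x
    rw [hQ]
    simp only [Polynomial.derivative_mul, Polynomial.derivative_sub, Polynomial.derivative_X,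
      Polynomial.derivative_C, Polynomial.derivative_add,
      Polynomial.eval_mul, Polynomial.eval_add, Polynomial.eval_sub, Polynomial.eval_X,
      Polynomial.eval_C, sub_zero, one_mul]
    nlinarith [mul_nonneg (sq_nonneg (x - z.re)) (sub_nonneg.mpr key), sq_nonneg (Q.eval x)]

/-- If `φ ξ ≤ ψ ^ 2` everywhere, `φ` and `ψ` vanish at the origin and `ξ` does not, then `φ`
vanishes to the second order. -/
theorem coeff_one_eq_zero (φ ψ ξ : Polynomial ℝ)
    (h : ∀ e : ℝ, φ.eval e * ξ.eval e ≤ (ψ.eval e) ^ 2)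
    (h0 : φ.eval 0 = 0) (h1 : ψ.eval 0 = 0) (h2 : ξ.eval 0 ≠ 0) : φ.coeff 1 = 0 := by
  set Q : Polynomial ℝ := ψ ^ 2 - φ * ξ with hQ
  have hmin : IsLocalMin (fun e => Q.eval e) 0 := by
    apply Filter.Eventually.of_forall
    intro e
    have := h e
    simp only [hQ, Polynomial.eval_sub, Polynomial.eval_pow, Polynomial.eval_mul, h0, h1]
    nlinarith
  have hd := hmin.hasDerivAt_eq_zero (Q.hasDerivAt 0)
  simp only [hQ, Polynomial.derivative_sub, Polynomial.derivative_pow, Polynomial.derivative_mul,
    Polynomial.eval_sub, Polynomial.eval_mul, Polynomial.eval_add, h0, h1, Polynomial.eval_pow] at hd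
  norm_num at hd
  rcases hd with hd | hd
  · rw [← Polynomial.coeff_zero_eq_eval_zero, Polynomial.coeff_derivative] at hd
    simpa using hd
  · exact absurd hd h2

section Hom

variable {σ : Type*} {K : Type*} [CommRing K] [Algebra ℝ K]

/-- The homogenisation of degree `d` of `r` evaluated at the point `(t, a)`. -/
noncomputable def hom (d : ℕ) (r : MvPolynomial σ ℝ) (a : σ → K) (t : K) : K :=
  ∑ k ∈ Finset.range (d + 1), aeval a (homogeneousComponent k r) * t ^ (d - k)

theorem aeval_scale (φ : MvPolynomial σ ℝ) (n : ℕ) (h : φ.IsHomogeneous n) (s : K) (a : σ → K) :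
    aeval (fun i => s * a i) φ = s ^ n * aeval a φ := by
  rw [aeval_def, aeval_def, eval₂_eq, eval₂_eq, Finset.mul_sum]
  refine Finset.sum_congr rfl fun m hm => ?_
  have hdeg : ∑ i ∈ m.support, m i = n := (h.degree_eq_sum_deg_support hm).symm
  rw [Finset.prod_congr rfl (fun i _ => mul_pow s (a i) (m i)), Finset.prod_mul_distrib,
    Finset.prod_pow_eq_pow_sum, hdeg]
  ring

theorem sum_hc (d : ℕ) (r : MvPolynomial σ ℝ) (hr : r.totalDegree ≤ d) :
    ∑ k ∈ Finset.range (d + 1), homogeneousComponent k r = r := by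
  conv_rhs => rw [← sum_homogeneousComponent r]
  symm
  apply Finset.sum_subset
  · intro k hk
    simp only [Finset.mem_range] at hk ⊢
    omega
  · intro k _ hk
    simp only [Finset.mem_range] at hk
    exact homogeneousComponent_eq_zero _ _ (by omega)

theorem hom_mul {s t : K} (d : ℕ) (r : MvPolynomial σ ℝ) (hr : r.totalDegree ≤ d) (a : σ → K)
    (hst : s * t = 1) : hom d r a t = t ^ d * aeval (fun i => s * a i) r := by
  conv_rhs => rw [← sum_hc d r hr, map_sum, Finset.mul_sum]
  unfold hom
  refine Finset.sum_congr rfl fun k hk => ?_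
  rw [aeval_scale _ k (homogeneousComponent_isHomogeneous k r)]
  have hk' : k ≤ d := by simpa [Nat.lt_succ_iff] using hk
  have : t ^ d = t ^ (d - k) * t ^ k := by rw [← pow_add, Nat.sub_add_cancel hk']
  rw [this]
  have h1 : t ^ k * s ^ k = 1 := by rw [← mul_pow, mul_comm t s, hst, one_pow]
  calc aeval a (homogeneousComponent k r) * t ^ (d - k)
      = (t ^ k * s ^ k) * (aeval a (homogeneousComponent k r) * t ^ (d - k)) := by rw [h1, one_mul]
    _ = _ := by ring

theorem hom_map {L : Type*} [CommRing L] [Algebra ℝ L] (f : K →ₐ[ℝ] L) (d : ℕ)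
    (r : MvPolynomial σ ℝ) (a : σ → K) (t : K) :
    f (hom d r a t) = hom d r (fun i => f (a i)) (f t) := by
  unfold hom
  rw [map_sum]
  refine Finset.sum_congr rfl fun k _ => ?_
  rw [map_mul, map_pow]
  congr 1
  rw [← MvPolynomial.comp_aeval_apply]
  
end Hom

end Pool.Agent.V5helper90.RZ
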