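import Mathlib
import Pool.Agent.V5helper90.RZBasic

/-!
# Real zero polynomials without a real zero amalgam of any degree
-/

namespace Pool.Agent.V5helper90.RZ

open MvPolynomial

/-- The polynomial `(2 + x₁ + y) (1 + x₁ - x₂²)`. -/
noncomputable def pex (m : ℕ) : MvPolynomial (Fin 2 ⊕ Fin (m + 1)) ℝ :=
  (2 + X (Sum.inl 0) + X (Sum.inr 0)) * (1 + X (Sum.inl 0) - X (Sum.inl 1) ^ 2)

/-- The polynomial `(2 + x₁) (1 + x₁ - x₂²) + z ((2 + x₁)² - 4 x₂²)`. -/
noncomputable def qex (m : ℕ) : MvPolynomial (Fin 2 ⊕ Fin (m + 1)) ℝ :=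
  (2 + X (Sum.inl 0)) * (1 + X (Sum.inl 0) - X (Sum.inl 1) ^ 2) +
    X (Sum.inr 0) * ((2 + X (Sum.inl 0)) ^ 2 - 4 * X (Sum.inl 1) ^ 2)

theorem real_of_one_add {l : ℂ} {c : ℝ} (h : 1 + l * (c : ℂ) = 0) : l.im = 0 := by
  have h1 := congrArg Complex.re h
  have h2 := congrArg Complex.im h
  simp at h1 h2
  rcases h2 with h2 | h2
  · exact h2
  · rw [h2] at h1; simp at h1

theorem real_of_circle {l : ℂ} {a b : ℝ} (h : 1 - (l * (a : ℂ)) ^ 2 - (l * (b : ℂ)) ^ 2 = 0) :
    l.im = 0 := by
  have h1 := congrArg Complex.re h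
  have h2 := congrArg Complex.im h
  simp [pow_two] at h1 h2
  by_contra hne
  have h3 : l.re * (a ^ 2 + b ^ 2) = 0 := by
    have : l.im * (l.re * (a ^ 2 + b ^ 2)) = 0 := by nlinarith
    rcases mul_eq_zero.mp this with h | h
    · exact absurd h hne
    · exact h
  rcases mul_eq_zero.mp h3 with h4 | h4
  · rw [h4] at h1
    nlinarith [sq_nonneg (l.im * a), sq_nonneg (l.im * b)]
  · have ha : a = 0 := by nlinarith [sq_nonneg a, sq_nonneg b]
    have hb : b = 0 := by nlinarith [sq_nonneg a, sq_nonneg b]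
    rw [ha, hb] at h1
    simp at h1

theorem real_of_cubic {l : ℂ} {a b c : ℝ}
    (h : (1 - (l * (a : ℂ)) ^ 2 - (l * (b : ℂ)) ^ 2) + (l * (c : ℂ)) * (1 - (l * (b : ℂ)) ^ 2) = 0) :
    l.im = 0 := by
  by_contra hne
  have hl : l ≠ 0 := by rintro rfl; simp at hne
  -- `(1 + l c) (1 - l² b²) = l² a²`
  have h1 : (1 + l * c) * (1 - (l * (b : ℂ)) ^ 2) = (l * a) ^ 2 := by linear_combination h
  set w : ℂ := 1 - (l * (b : ℂ)) ^ 2 with hw
  have h2 : (1 / l + c) * (w * (starRingEnd ℂ) w) = a ^ 2 * (l * (starRingEnd ℂ) w) := by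
    field_simp
    linear_combination (starRingEnd ℂ) w * h1
  have h3 : (starRingEnd ℂ) w = 1 - ((starRingEnd ℂ) l * b) ^ 2 := by
    simp [hw]
  have h4 : l * (starRingEnd ℂ) w = l - (Complex.normSq l : ℂ) * (starRingEnd ℂ) l * b ^ 2 := by
    rw [h3, Complex.normSq_eq_conj_mul_self]; ring
  rw [h4, Complex.mul_conj] at h2
  have h5 := congrArg Complex.im h2
  have h6 : (1 / l).im = - l.im / Complex.normSq l := by
    rw [one_div, Complex.inv_im]
  have hN : 0 < Complex.normSq l := Complex.normSq_pos.mpr hl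
  have h7 : ((1 / l + c) * (Complex.normSq w : ℂ)).im = (- l.im / Complex.normSq l) * Complex.normSq w := by
    rw [Complex.mul_im, Complex.add_im, h6]
    simp
  have h8 : ((a : ℂ) ^ 2 * (l - (Complex.normSq l : ℂ) * (starRingEnd ℂ) l * b ^ 2)).im
      = a ^ 2 * (l.im + Complex.normSq l * l.im * b ^ 2) := by
    have e1 : ((a : ℂ) ^ 2 * (l - (Complex.normSq l : ℂ) * (starRingEnd ℂ) l * b ^ 2))
      = ((a ^ 2 : ℝ) : ℂ) * (l - ((Complex.normSq l * b ^ 2 : ℝ) : ℂ) * (starRingEnd ℂ) l) := by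
      push_cast; ring
    rw [e1, Complex.im_ofReal_mul, Complex.sub_im, Complex.im_ofReal_mul, Complex.conj_im]
    ring
  rw [h7, h8] at h5
  have h9 : l.im * (Complex.normSq w / Complex.normSq l + a ^ 2 * (1 + Complex.normSq l * b ^ 2)) = 0 := by
    have : (- l.im / Complex.normSq l) * Complex.normSq w
      = - (l.im * (Complex.normSq w / Complex.normSq l)) := by ring
    rw [this] at h5
    linarith
  rcases mul_eq_zero.mp h9 with h | h
  · exact hne h
  · have p1 : 0 ≤ Complex.normSq w / Complex.normSq l := by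
      apply div_nonneg (Complex.normSq_nonneg _) hN.le
    have p2 : 0 ≤ a ^ 2 * (1 + Complex.normSq l * b ^ 2) := by positivity
    have p3 : Complex.normSq w / Complex.normSq l = 0 := by linarith
    have p4 : Complex.normSq w = 0 := by
      rcases div_eq_zero_iff.mp p3 with h | h
      · exact h
      · exact absurd h hN.ne'
    have p5 : w = 0 := Complex.normSq_eq_zero.mp p4
    apply hne
    apply real_of_circle (a := b) (b := 0)
    simpa [hw] using p5


theorem real_of_inv {l : ℂ} (h : (l⁻¹).im = 0) : l.im = 0 := by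
  by_cases hl : l = 0
  · simp [hl]
  · rw [Complex.inv_im] at h
    have hN : Complex.normSq l ≠ 0 := fun h => hl (Complex.normSq_eq_zero.mp h)
    rcases div_eq_zero_iff.mp h with h | h
    · linarith
    · exact absurd h hN

theorem pex_realZero (m : ℕ) : RealZero (pex m) := by
  intro a l h
  simp only [pex, map_mul, map_pow, map_add, map_sub, map_one, aeval_X, map_ofNat] at h
  rcases mul_eq_zero.mp h with h | h
  · apply real_of_one_add (l := l) (c := (a (Sum.inl 0) + a (Sum.inr 0)) / 2)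
    push_cast
    linear_combination h / 2
  · by_cases hl : l = 0
    · simp [hl]
    -- with `t = 2 / l + a₁` the equation reads `t ^ 2 = a₁ ^ 2 + 4 a₂ ^ 2`
    have h1 : 1 - ((2 * l⁻¹ + a (Sum.inl 0))⁻¹ * (a (Sum.inl 0) : ℂ)) ^ 2 -
        ((2 * l⁻¹ + a (Sum.inl 0))⁻¹ * ((2 * a (Sum.inl 1) : ℝ) : ℂ)) ^ 2 = 0 ∨
        2 * l⁻¹ + (a (Sum.inl 0) : ℂ) = 0 := by
      by_cases ht : 2 * l⁻¹ + (a (Sum.inl 0) : ℂ) = 0
      · exact Or.inr ht
      · left
        push_cast
        have : (2 * l⁻¹ + (a (Sum.inl 0) : ℂ)) ^ 2 = (a (Sum.inl 0) : ℂ) ^ 2 +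
            4 * (a (Sum.inl 1) : ℂ) ^ 2 := by
          field_simp
          linear_combination 4 * h
        rw [mul_pow, mul_pow, ← sub_eq_zero.mpr this, inv_pow]
        have ht2 : (2 * l⁻¹ + (a (Sum.inl 0) : ℂ)) ^ 2 ≠ 0 := pow_ne_zero _ ht
        rw [this] at ht2 ⊢
        field_simp
        ring
    have h2 : (2 * l⁻¹ + (a (Sum.inl 0) : ℂ)).im = 0 := by
      rcases h1 with h1 | h1
      · exact real_of_inv (real_of_circle h1)
      · rw [h1]; simp
    have h3 : (l⁻¹).im = 0 := by
      have : (2 * l⁻¹ + (a (Sum.inl 0) : ℂ)).im = 2 * (l⁻¹).im := by simp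
      linarith [this, h2]
    exact real_of_inv h3

theorem qex_realZero (m : ℕ) : RealZero (qex m) := by
  intro a l h
  simp only [qex, map_mul, map_pow, map_add, map_sub, map_one, aeval_X, map_ofNat] at h
  by_cases hl : l = 0
  · simp [hl]
  set t : ℂ := 2 * l⁻¹ + (a (Sum.inl 0) : ℂ) with ht
  have h2 : t.im = 0 := by
    by_cases ht0 : t = 0
    · simp [ht0]
    · apply real_of_inv
      apply real_of_cubic (a := a (Sum.inl 0)) (b := 2 * a (Sum.inl 1)) (c := 4 * a (Sum.inr 0))
      have key : t * (t ^ 2 - (a (Sum.inl 0) : ℂ) ^ 2 - (2 * a (Sum.inl 1)) ^ 2) +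
          4 * a (Sum.inr 0) * (t ^ 2 - (2 * a (Sum.inl 1) : ℂ) ^ 2) = 0 := by
        rw [ht]
        field_simp
        linear_combination 4 * h
      push_cast
      field_simp
      linear_combination key
  have h3 : (l⁻¹).im = 0 := by
    have : t.im = 2 * (l⁻¹).im := by simp [ht]
    linarith [this, h2]
  exact real_of_inv h3

section Main

variable {K : Type*}

/-- The test point `(u² - 1, u; -(u² + 1), 0, …; s, 0, …)`. -/
def pt [CommRing K] (m n : ℕ) (u s : K) : Fin 2 ⊕ (Fin (m + 1) ⊕ Fin (n + 1)) → K :=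
  Sum.elim ![u ^ 2 - 1, u] (Sum.elim (Pi.single 0 (-(u ^ 2 + 1))) (Pi.single 0 s))

theorem pt_map {L : Type*} [CommRing K] [CommRing L] (f : K →+* L) (m n : ℕ) (u s : K)
    (i : Fin 2 ⊕ (Fin (m + 1) ⊕ Fin (n + 1))) : f (pt m n u s i) = pt m n (f u) (f s) i := by
  rcases i with i | i | i
  · fin_cases i <;> simp [pt]
  · simp only [pt, Sum.elim_inr, Sum.elim_inl]
    by_cases h : i = 0
    · subst h; simp
    · simp [Pi.single_eq_of_ne h]
  · simp only [pt, Sum.elim_inr]
    by_cases h : i = 0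
    · subst h; simp
    · simp [Pi.single_eq_of_ne h]

/-- Restriction of `r(x, y, z)` to `z = 0`. -/
noncomputable def resY (m n : ℕ) :
    MvPolynomial (Fin 2 ⊕ (Fin m ⊕ Fin n)) ℝ →ₐ[ℝ] MvPolynomial (Fin 2 ⊕ Fin m) ℝ :=
  aeval (Sum.elim (fun i => X (Sum.inl i)) (Sum.elim (fun j => X (Sum.inr j)) (fun _ => 0)))

/-- Restriction of `r(x, y, z)` to `y = 0`. -/
noncomputable def resZ (m n : ℕ) :
    MvPolynomial (Fin 2 ⊕ (Fin m ⊕ Fin n)) ℝ →ₐ[ℝ] MvPolynomial (Fin 2 ⊕ Fin n) ℝ :=
  aeval (Sum.elim (fun i => X (Sum.inl i)) (Sum.elim (fun _ => 0) (fun k => X (Sum.inr k))))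

theorem aeval_resY [CommRing K] [Algebra ℝ K] (m n : ℕ)
    (b : Fin 2 ⊕ (Fin m ⊕ Fin n) → K) (hb : ∀ k, b (Sum.inr (Sum.inr k)) = 0)
    (r : MvPolynomial (Fin 2 ⊕ (Fin m ⊕ Fin n)) ℝ) :
    aeval b r = aeval (Sum.elim (fun i => b (Sum.inl i)) (fun j => b (Sum.inr (Sum.inl j))))
      (resY m n r) := by
  have : aeval b = (aeval (R := ℝ) (Sum.elim (fun i => b (Sum.inl i))
      (fun j => b (Sum.inr (Sum.inl j))))).comp (resY m n) := by
    apply MvPolynomial.algHom_ext
    rintro (i | j | k)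
    · simp [resY]
    · simp [resY]
    · simp [resY, hb]
  rw [this]; rfl

theorem aeval_resZ [CommRing K] [Algebra ℝ K] (m n : ℕ)
    (b : Fin 2 ⊕ (Fin m ⊕ Fin n) → K) (hb : ∀ j, b (Sum.inr (Sum.inl j)) = 0)
    (r : MvPolynomial (Fin 2 ⊕ (Fin m ⊕ Fin n)) ℝ) :
    aeval b r = aeval (Sum.elim (fun i => b (Sum.inl i)) (fun k => b (Sum.inr (Sum.inr k))))
      (resZ m n r) := by
  have : aeval b = (aeval (R := ℝ) (Sum.elim (fun i => b (Sum.inl i))
      (fun k => b (Sum.inr (Sum.inr k))))).comp (resZ m n) := by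
    apply MvPolynomial.algHom_ext
    rintro (i | j | k)
    · simp [resZ]
    · simp [resZ, hb]
    · simp [resZ]
  rw [this]; rfl

/-- The restriction of `r` to the line through the origin and the point `a`. -/
noncomputable def line {σ : Type*} [CommRing K] [Algebra ℝ K] (r : MvPolynomial σ ℝ) (a : σ → K) :
    Polynomial K :=
  aeval (fun i => Polynomial.X * Polynomial.C (a i)) r

theorem line_map {σ : Type*} [CommRing K] [Algebra ℝ K] {L : Type*} [CommRing L] [Algebra ℝ L]
    (f : K →ₐ[ℝ] L) (r : MvPolynomial σ ℝ) (a : σ → K) :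
    (line r a).map (f : K →+* L) = line r (fun i => f (a i)) := by
  have h1 : (Polynomial.mapAlgHom f).comp (aeval (fun i => Polynomial.X * Polynomial.C (a i))) =
      aeval (R := ℝ) (fun i => Polynomial.X * Polynomial.C (f (a i))) := by
    apply MvPolynomial.algHom_ext
    intro i
    simp
  have h2 := DFunLike.congr_fun h1 r
  exact h2

theorem line_eval {σ : Type*} [CommRing K] [Algebra ℝ K] {L : Type*} [CommRing L] [Algebra ℝ L]
    [Algebra K L] [IsScalarTower ℝ K L] (r : MvPolynomial σ ℝ) (a : σ → K) (z : L) :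
    Polynomial.aeval z (line r a) = aeval (fun i => z * algebraMap K L (a i)) r := by
  have h1 : ((Polynomial.aeval z : Polynomial K →ₐ[K] L).restrictScalars ℝ).comp
      (aeval (fun i => Polynomial.X * Polynomial.C (a i))) =
      aeval (R := ℝ) (fun i => z * algebraMap K L (a i)) := by
    apply MvPolynomial.algHom_ext
    intro i
    simp only [AlgHom.comp_apply, aeval_X, AlgHom.restrictScalars_apply, map_mul,
      Polynomial.aeval_X, Polynomial.aeval_C]
  exact DFunLike.congr_fun h1 r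

variable {m n : ℕ} {r : MvPolynomial (Fin 2 ⊕ (Fin (m + 1) ⊕ Fin (n + 1))) ℝ}

theorem line_zero (h1 : resY _ _ r = pex m) (u : ℝ) :
    line r (pt m n u 0) = (Polynomial.X - Polynomial.C 1) ^ 2 *
      (Polynomial.C 2 * (1 + Polynomial.X * Polynomial.C (u ^ 2))) := by
  unfold line
  rw [aeval_resY _ _ _ (by intro k; simp [pt]), h1]
  simp only [pex, map_mul, map_pow, map_add, map_sub, map_one, aeval_X, Sum.elim_inr, Sum.elim_inl,
    pt, Pi.single_eq_same, Matrix.cons_val_zero, Matrix.cons_val_one, map_neg, map_ofNat]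
  ring

theorem value_at_I (h2 : resZ _ _ r = qex n) (s : ℂ) :
    aeval (pt m n Complex.I s) r = 4 * s := by
  rw [aeval_resZ _ _ _ (by
      intro j
      simp only [pt, Sum.elim_inr, Sum.elim_inl, Complex.I_sq]
      simp), h2]
  simp only [qex, map_mul, map_pow, map_add, map_sub, map_one, aeval_X, Sum.elim_inr,
    Sum.elim_inl, pt, Pi.single_eq_same, Matrix.cons_val_zero, Matrix.cons_val_one, Complex.I_sq,
    map_ofNat]
  ring

/-- The value of `r` at the test point as a polynomial in the outer variable `s` over the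
polynomials in `u`. -/
noncomputable def Phi (m n : ℕ) (r : MvPolynomial (Fin 2 ⊕ (Fin (m + 1) ⊕ Fin (n + 1))) ℝ) :
    Polynomial (Polynomial ℝ) :=
  aeval (pt m n (Polynomial.C (Polynomial.X : Polynomial ℝ))
    (Polynomial.X : Polynomial (Polynomial ℝ))) r

theorem Phi_map {L : Type*} [CommRing L] [Algebra ℝ L] (f : Polynomial ℝ →ₐ[ℝ] L) :
    (Phi m n r).map (f : Polynomial ℝ →+* L) =
      aeval (pt m n (Polynomial.C (f Polynomial.X)) (Polynomial.X : Polynomial L)) r := by
  have h1 : (Polynomial.mapAlgHom f).comp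
      (aeval (pt m n (Polynomial.C (Polynomial.X : Polynomial ℝ))
        (Polynomial.X : Polynomial (Polynomial ℝ))))
      = aeval (R := ℝ) (pt m n (Polynomial.C (f Polynomial.X)) (Polynomial.X : Polynomial L)) := by
    apply MvPolynomial.algHom_ext
    intro i
    have := pt_map (Polynomial.mapRingHom (f : Polynomial ℝ →+* L)) m n
      (Polynomial.C Polynomial.X) Polynomial.X i
    simpa using this
  exact DFunLike.congr_fun h1 r

theorem coeff_real (hr : RealZero r) (h1 : resY _ _ r = pex m) (u : ℝ) :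
    (aeval (pt m n (Polynomial.C u) (Polynomial.X : Polynomial ℝ)) r).coeff 1 = 0 := by
  set T : Polynomial (Polynomial ℝ) :=
    line r (pt m n (Polynomial.C u) (Polynomial.X : Polynomial ℝ)) with hT
  have hφ : T.eval 1 = aeval (pt m n (Polynomial.C u) (Polynomial.X : Polynomial ℝ)) r := by
    have := line_eval (L := Polynomial ℝ) r (pt m n (Polynomial.C u) (Polynomial.X : Polynomial ℝ)) 1
    simpa [Polynomial.coe_aeval_eq_eval, ← hT] using this
  -- specialisation of the perturbation parameter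
  have hTe : ∀ s : ℝ, T.map (Polynomial.evalRingHom s) = line r (pt m n u s) := by
    intro s
    have := line_map (Polynomial.aeval s : Polynomial ℝ →ₐ[ℝ] ℝ) r
      (pt m n (Polynomial.C u) (Polynomial.X : Polynomial ℝ))
    have h2 : (fun i => (Polynomial.aeval s : Polynomial ℝ →ₐ[ℝ] ℝ)
        (pt m n (Polynomial.C u) (Polynomial.X : Polynomial ℝ) i)) = pt m n u s := by
      funext i
      have := pt_map ((Polynomial.aeval s : Polynomial ℝ →ₐ[ℝ] ℝ) : Polynomial ℝ →+* ℝ) m n
        (Polynomial.C u) Polynomial.X i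
      simpa using this
    rw [h2] at this
    rw [← this]
    rfl
  have hev : ∀ (P : Polynomial (Polynomial ℝ)) (s : ℝ),
      (P.eval 1).eval s = (P.map (Polynomial.evalRingHom s)).eval 1 := by
    intro P s
    have := Polynomial.eval_map_apply (p := P) (Polynomial.evalRingHom s) 1
    rw [map_one] at this
    rw [this]
    rfl
  have hreal : ∀ (s : ℝ) (z : ℂ), Polynomial.aeval z (T.map (Polynomial.evalRingHom s)) = 0 →
      z.im = 0 := by
    intro s z hz
    rw [hTe s, line_eval] at hz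
    exact hr _ _ hz
  rw [← hφ]
  have h0 := line_zero (m := m) (n := n) h1 u
  rw [← hTe 0] at h0
  apply coeff_one_eq_zero (T.eval 1) (T.derivative.eval 1) (T.derivative.derivative.eval 1)
  · intro s
    rw [hev, hev, hev, ← Polynomial.derivative_map, ← Polynomial.derivative_map]
    exact laguerre _ _ rfl (hreal s) 1
  · rw [hev, h0]
    simp
  · rw [hev, ← Polynomial.derivative_map, h0]
    simp [Polynomial.derivative_mul, Polynomial.derivative_pow]
  · rw [hev, ← Polynomial.derivative_map, ← Polynomial.derivative_map, h0]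
    have h7 : (1 : ℝ) + u ^ 2 ≠ 0 := by positivity
    simp [Polynomial.derivative_mul, Polynomial.derivative_pow, h7]

/-- There is no real zero amalgam of any degree. -/
theorem no_amalgam (hr : RealZero r) (h1 : resY _ _ r = pex m) (h2 : resZ _ _ r = qex n) :
    False := by
  have hc : (Phi m n r).coeff 1 = 0 := by
    apply Polynomial.funext
    intro u
    have h3 := Phi_map (m := m) (n := n) (r := r) (Polynomial.aeval u : _ →ₐ[ℝ] ℝ)
    have h4 := coeff_real hr h1 u
    rw [Polynomial.aeval_X] at h3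
    rw [← h3, Polynomial.coeff_map] at h4
    simpa [Polynomial.coe_aeval_eq_eval] using h4
  have h3 := Phi_map (m := m) (n := n) (r := r) (Polynomial.aeval Complex.I : _ →ₐ[ℝ] ℂ)
  rw [Polynomial.aeval_X] at h3
  have h5 : aeval (pt m n (Polynomial.C Complex.I) (Polynomial.X : Polynomial ℂ)) r =
      Polynomial.C 4 * Polynomial.X := by
    apply Polynomial.funext
    intro s
    have h6 : ((Polynomial.aeval s : Polynomial ℂ →ₐ[ℂ] ℂ).restrictScalars ℝ).comp
        (aeval (pt m n (Polynomial.C Complex.I) Polynomial.X)) =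
        aeval (R := ℝ) (pt m n Complex.I s) := by
      apply MvPolynomial.algHom_ext
      intro i
      have := pt_map ((Polynomial.aeval s : Polynomial ℂ →ₐ[ℂ] ℂ) : Polynomial ℂ →+* ℂ) m n
        (Polynomial.C Complex.I) Polynomial.X i
      simpa using this
    have h7 := DFunLike.congr_fun h6 r
    rw [value_at_I h2 s] at h7
    simpa [Polynomial.coe_aeval_eq_eval] using h7
  rw [h5] at h3
  have h8 := congrArg (fun P => Polynomial.coeff P 1) h3
  simp only [Polynomial.coeff_map, hc, map_zero, Polynomial.coeff_C_mul, Polynomial.coeff_X_one]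
    at h8
  norm_num at h8

end Main

end Pool.Agent.V5helper90.RZ
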