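import Mathlib
import Pool.Agent.V5helper90.RZNo

/-!
# Real zero amalgams of polynomials of degree at most two
-/

namespace Pool.Agent.V5helper90.RZ

open MvPolynomial

/-- Restriction of `p(x, y)` to `y = 0`. -/
noncomputable def resX (m : ℕ) :
    MvPolynomial (Fin 2 ⊕ Fin m) ℝ →ₐ[ℝ] MvPolynomial (Fin 2) ℝ :=
  aeval (Sum.elim (fun i => X i) (fun _ => 0))

/-- For all real zero polynomials `p(x, y)` and `q(x, z)` of degree at most `d` in two shared
variables `x`, and `m` respectively `n` further variables, which agree for `y = 0`, `z = 0`, there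
is a real zero polynomial `r(x, y, z)` of degree at most `d` that restricts to both. -/
def Amalgamation (d m n : ℕ) : Prop :=
  ∀ (p : MvPolynomial (Fin 2 ⊕ Fin m) ℝ) (q : MvPolynomial (Fin 2 ⊕ Fin n) ℝ),
    RealZero p → RealZero q → p.totalDegree ≤ d → q.totalDegree ≤ d → resX m p = resX n q →
    ∃ r : MvPolynomial (Fin 2 ⊕ (Fin m ⊕ Fin n)) ℝ,
      RealZero r ∧ r.totalDegree ≤ d ∧ resY m n r = p ∧ resZ m n r = q

theorem RealZero.rename {σ τ : Type*} (g : σ → τ) (f : MvPolynomial σ ℝ) (hf : RealZero f) :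
    RealZero (rename g f) := by
  intro a l h
  rw [aeval_rename] at h
  exact hf (a ∘ g) l h

theorem amalgamation_m_zero (d n : ℕ) : Amalgamation d 0 n := by
  intro p q _ hq _ hqd h
  refine ⟨rename (Sum.elim Sum.inl (Sum.inr ∘ Sum.inr)) q, hq.rename _ _,
    (totalDegree_rename_le _ _).trans hqd, ?_, ?_⟩
  · have h1 : (resY 0 n).comp (rename (Sum.elim Sum.inl (Sum.inr ∘ Sum.inr)))
        = (rename Sum.inl).comp (resX n) := by
      apply MvPolynomial.algHom_ext
      rintro (i | k)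
      · simp [resY, resX]
      · simp [resY, resX]
    have h2 : (rename Sum.inl).comp (resX 0) = AlgHom.id ℝ (MvPolynomial (Fin 2 ⊕ Fin 0) ℝ) := by
      apply MvPolynomial.algHom_ext
      rintro (i | k)
      · simp [resX]
      · exact k.elim0
    calc resY 0 n (rename (Sum.elim Sum.inl (Sum.inr ∘ Sum.inr)) q)
        = ((resY 0 n).comp (rename (Sum.elim Sum.inl (Sum.inr ∘ Sum.inr)))) q := rfl
      _ = rename Sum.inl (resX n q) := by rw [h1]; rfl
      _ = ((rename Sum.inl).comp (resX 0)) p := by rw [← h]; rfl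
      _ = p := by rw [h2]; rfl
  · have h1 : (resZ 0 n).comp (rename (Sum.elim Sum.inl (Sum.inr ∘ Sum.inr)))
        = AlgHom.id ℝ _ := by
      apply MvPolynomial.algHom_ext
      rintro (i | k)
      · simp [resZ]
      · simp [resZ]
    calc resZ 0 n (rename (Sum.elim Sum.inl (Sum.inr ∘ Sum.inr)) q)
        = ((resZ 0 n).comp (rename (Sum.elim Sum.inl (Sum.inr ∘ Sum.inr)))) q := rfl
      _ = q := by rw [h1]; rfl

theorem amalgamation_n_zero (d m : ℕ) : Amalgamation d m 0 := by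
  intro p q hp _ hpd _ h
  refine ⟨rename (Sum.elim Sum.inl (Sum.inr ∘ Sum.inl)) p, hp.rename _ _,
    (totalDegree_rename_le _ _).trans hpd, ?_, ?_⟩
  · have h1 : (resY m 0).comp (rename (Sum.elim Sum.inl (Sum.inr ∘ Sum.inl)))
        = AlgHom.id ℝ _ := by
      apply MvPolynomial.algHom_ext
      rintro (i | k)
      · simp [resY]
      · simp [resY]
    calc resY m 0 (rename (Sum.elim Sum.inl (Sum.inr ∘ Sum.inl)) p)
        = ((resY m 0).comp (rename (Sum.elim Sum.inl (Sum.inr ∘ Sum.inl)))) p := rfl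
      _ = p := by rw [h1]; rfl
  · have h1 : (resZ m 0).comp (rename (Sum.elim Sum.inl (Sum.inr ∘ Sum.inl)))
        = (rename Sum.inl).comp (resX m) := by
      apply MvPolynomial.algHom_ext
      rintro (i | k)
      · simp [resZ, resX]
      · simp [resZ, resX]
    have h2 : (rename Sum.inl).comp (resX 0) = AlgHom.id ℝ (MvPolynomial (Fin 2 ⊕ Fin 0) ℝ) := by
      apply MvPolynomial.algHom_ext
      rintro (i | k)
      · simp [resX]
      · exact k.elim0
    calc resZ m 0 (rename (Sum.elim Sum.inl (Sum.inr ∘ Sum.inl)) p)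
        = ((resZ m 0).comp (rename (Sum.elim Sum.inl (Sum.inr ∘ Sum.inl)))) p := rfl
      _ = rename Sum.inl (resX m p) := by rw [h1]; rfl
      _ = ((rename Sum.inl).comp (resX 0)) q := by rw [h]; rfl
      _ = q := by rw [h2]; rfl

/-- Polynomials of degree at most two in normal form. -/
theorem normal_form {σ : Type*} [Fintype σ] [DecidableEq σ] (p : MvPolynomial σ ℝ)
    (hp : p.totalDegree ≤ 2) :
    ∃ (c : ℝ) (b : σ → ℝ) (S : σ → σ → ℝ), (∀ i j, S i j = S j i) ∧
      p = C c + ∑ i, C (b i) * X i + ∑ i, ∑ j, C (S i j) * (X i * X j) := by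
  let N : Submodule ℝ (MvPolynomial σ ℝ) :=
    { carrier := {p | ∃ (c : ℝ) (b : σ → ℝ) (S : σ → σ → ℝ), (∀ i j, S i j = S j i) ∧
        p = C c + ∑ i, C (b i) * X i + ∑ i, ∑ j, C (S i j) * (X i * X j)}
      add_mem' := by
        rintro p q ⟨c, b, S, hS, rfl⟩ ⟨c', b', S', hS', rfl⟩
        refine ⟨c + c', b + b', S + S', fun i j => by simp [hS i j, hS' i j], ?_⟩
        simp only [map_add, Pi.add_apply, add_mul, Finset.sum_add_distrib]
        ring
      zero_mem' := ⟨0, 0, 0, fun _ _ => rfl, by simp⟩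
      smul_mem' := by
        rintro s p ⟨c, b, S, hS, rfl⟩
        refine ⟨s * c, s • b, s • S, fun i j => by simp [hS i j], ?_⟩
        simp only [smul_add, Finset.smul_sum, Pi.smul_apply, smul_eq_mul, map_mul, smul_eq_C_mul,
          mul_assoc] }
  have hX2 : ∀ i j : σ, (X i * X j : MvPolynomial σ ℝ) ∈ N := by
    intro i j
    refine ⟨0, 0, fun k l => (if k = i ∧ l = j then 1 / 2 else 0) +
      (if k = j ∧ l = i then 1 / 2 else 0), ?_, ?_⟩
    · intro k l
      dsimp only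
      rw [add_comm]
      congr 1 <;> simp only [and_comm]
    · simp only [map_zero, Pi.zero_apply, zero_mul, Finset.sum_const_zero, zero_add, map_add,
        add_mul, Finset.sum_add_distrib]
      have e1 : ∀ a b : σ, ∑ k, ∑ l, (C (if k = a ∧ l = b then (1 / 2 : ℝ) else 0)) *
          (X k * X l : MvPolynomial σ ℝ) = C (1 / 2) * (X a * X b) := by
        intro a b
        rw [Finset.sum_eq_single a, Finset.sum_eq_single b]
        · simp
        · intro l _ hl; simp [hl]
        · simp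
        · intro k _ hk; simp [hk]
        · simp
      rw [e1, e1, mul_comm (X j) (X i), ← add_mul, ← map_add]
      norm_num
  have hX1 : ∀ i : σ, (X i : MvPolynomial σ ℝ) ∈ N := by
    intro i
    refine ⟨0, Pi.single i 1, 0, fun _ _ => rfl, ?_⟩
    simp only [map_zero, zero_add, Pi.zero_apply, zero_mul, Finset.sum_const_zero, add_zero]
    rw [Finset.sum_eq_single i]
    · simp
    · intro j _ hj; simp [hj]
    · simp
  have h1 : (1 : MvPolynomial σ ℝ) ∈ N := ⟨1, 0, 0, fun _ _ => rfl, by simp⟩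
  have hmon : ∀ s : σ →₀ ℕ, s.degree ≤ 2 → (monomial s (1 : ℝ)) ∈ N := by
    intro s hs
    by_cases h0 : s = 0
    · subst h0; exact h1
    obtain ⟨i, hi⟩ : ∃ i, s i ≠ 0 := by
      by_contra hcon
      push Not at hcon
      exact h0 (Finsupp.ext hcon)
    have hsi : s = Finsupp.single i 1 + (s - Finsupp.single i 1) := by
      ext j
      simp only [Finsupp.add_apply, Finsupp.tsub_apply]
      by_cases hj : i = j
      · subst hj; simp; omega
      · simp [Finsupp.single_eq_of_ne' hj]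
    set s' := s - Finsupp.single i 1 with hs'
    have hdeg : s.degree = 1 + s'.degree := by
      conv_lhs => rw [hsi]
      rw [map_add, Finsupp.degree_single]
    by_cases h0' : s' = 0
    · rw [hsi, h0', add_zero]
      exact hX1 i
    obtain ⟨j, hj⟩ : ∃ i, s' i ≠ 0 := by
      by_contra hcon
      push Not at hcon
      exact h0' (Finsupp.ext hcon)
    have hsj : s' = Finsupp.single j 1 + (s' - Finsupp.single j 1) := by
      ext k
      simp only [Finsupp.add_apply, Finsupp.tsub_apply]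
      by_cases hk : j = k
      · subst hk; simp; omega
      · simp [Finsupp.single_eq_of_ne' hk]
    have hdeg' : s'.degree = 1 + (s' - Finsupp.single j 1).degree := by
      conv_lhs => rw [hsj]
      rw [map_add, Finsupp.degree_single]
    have h2 : (s' - Finsupp.single j 1).degree = 0 := by omega
    rw [Finsupp.degree_eq_zero_iff] at h2
    have : monomial s (1 : ℝ) = X i * X j := by
      rw [hsi, hsj, h2, add_zero, X, X, monomial_mul, one_mul]
    rw [this]
    exact hX2 i j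
  have hmem : p ∈ N := by
    rw [p.as_sum]
    apply Submodule.sum_mem
    intro s hs
    have hsd : s.degree ≤ 2 := by
      have := le_totalDegree hs
      have h3 : s.degree = s.sum fun _ e => e := rfl
      omega
    have : monomial s (coeff s p) = (coeff s p) • monomial s (1 : ℝ) := by
      rw [smul_monomial, smul_eq_mul, mul_one]
    rw [this]
    exact N.smul_mem _ (hmon s hsd)
  exact hmem

/-- In the quadratic case: a positive semidefinite form in `x₀, x₁, s` has its mixed terms in the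
range of the form in `x₀, x₁`. -/
theorem range_two (α β γ b0 b1 c : ℝ)
    (h : ∀ x0 x1 s : ℝ, 0 ≤ α * x0 ^ 2 + 2 * β * x0 * x1 + γ * x1 ^ 2 +
      2 * (b0 * x0 + b1 * x1) * s + c * s ^ 2) :
    ∃ T0 T1 : ℝ, b0 = α * T0 + β * T1 ∧ b1 = β * T0 + γ * T1 := by
  -- the mixed terms vanish on the kernel
  have hker : ∀ v0 v1 : ℝ, α * v0 + β * v1 = 0 → β * v0 + γ * v1 = 0 → b0 * v0 + b1 * v1 = 0 := by
    intro v0 v1 e0 e1
    by_contra hne
    set k := b0 * v0 + b1 * v1 with hk
    have h1 := h (-(c + 1) / (2 * k) * v0) (-(c + 1) / (2 * k) * v1) 1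
    have e2 : α * (-(c + 1) / (2 * k) * v0) ^ 2 +
        2 * β * (-(c + 1) / (2 * k) * v0) * (-(c + 1) / (2 * k) * v1) +
        γ * (-(c + 1) / (2 * k) * v1) ^ 2 = 0 := by
      have : α * (-(c + 1) / (2 * k) * v0) ^ 2 +
        2 * β * (-(c + 1) / (2 * k) * v0) * (-(c + 1) / (2 * k) * v1) +
        γ * (-(c + 1) / (2 * k) * v1) ^ 2 = (-(c + 1) / (2 * k)) ^ 2 *
        (v0 * (α * v0 + β * v1) + v1 * (β * v0 + γ * v1)) := by ring
      rw [this, e0, e1]; ring
    have e3 : 2 * (b0 * (-(c + 1) / (2 * k) * v0) + b1 * (-(c + 1) / (2 * k) * v1)) * 1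
        = -(c + 1) := by
      have : 2 * (b0 * (-(c + 1) / (2 * k) * v0) + b1 * (-(c + 1) / (2 * k) * v1)) * 1
        = (-(c + 1) / (2 * k)) * (2 * (b0 * v0 + b1 * v1)) := by ring
      rw [this, ← hk]
      field_simp
    rw [e2, e3] at h1
    linarith
  by_cases hdet : α * γ - β ^ 2 = 0
  · by_cases hα : α = 0
    · have hβ : β = 0 := by
        rw [hα] at hdet; nlinarith
      have hb0 : b0 = 0 := by
        have := hker 1 0 (by simp [hα]) (by simp [hβ]); simpa using this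
      by_cases hγ : γ = 0
      · have hb1 : b1 = 0 := by
          have := hker 0 1 (by simp [hβ]) (by simp [hγ]); simpa using this
        exact ⟨0, 0, by simp [hb0], by simp [hb1]⟩
      · exact ⟨0, b1 / γ, by simp [hb0, hβ], by field_simp; simp⟩
    · refine ⟨b0 / α, 0, by field_simp; simp, ?_⟩
      have := hker (-β) α (by ring) (by linarith [hdet])
      field_simp
      linarith
  · refine ⟨(γ * b0 - β * b1) / (α * γ - β ^ 2), (α * b1 - β * b0) / (α * γ - β ^ 2), ?_, ?_⟩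
    · have e : α * ((γ * b0 - β * b1) / (α * γ - β ^ 2)) +
          β * ((α * b1 - β * b0) / (α * γ - β ^ 2)) = b0 * (α * γ - β ^ 2) / (α * γ - β ^ 2) := by
        ring
      rw [e, mul_div_cancel_right₀ _ hdet]
    · have e : β * ((γ * b0 - β * b1) / (α * γ - β ^ 2)) +
          γ * ((α * b1 - β * b0) / (α * γ - β ^ 2)) = b1 * (α * γ - β ^ 2) / (α * γ - β ^ 2) := by
        ring
      rw [e, mul_div_cancel_right₀ _ hdet]

/-- A univariate real polynomial of degree at most two with nonzero constant term and nonnegative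
discriminant has only real zeros. -/
theorem real_of_disc {c β γ : ℝ} (hc : c ≠ 0) (h : 0 ≤ β ^ 2 - 4 * c * γ) {l : ℂ}
    (hl : (c : ℂ) + l * β + l ^ 2 * γ = 0) : l.im = 0 := by
  have h1 := congrArg Complex.re hl
  have h2 := congrArg Complex.im hl
  simp [pow_two] at h1 h2
  by_contra hne
  have h3 : β + 2 * l.re * γ = 0 := by
    have : l.im * (β + 2 * l.re * γ) = 0 := by linarith
    exact (mul_eq_zero.mp this).resolve_left hne
  have hβ : β = -2 * l.re * γ := by linarith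
  rw [hβ] at h h1
  have h4 : c = (l.re ^ 2 + l.im ^ 2) * γ := by nlinarith
  rw [h4] at h
  have h5 : 0 ≤ - 4 * (l.im * γ) ^ 2 := by nlinarith
  have h6 : l.im * γ = 0 := by nlinarith [sq_nonneg (l.im * γ)]
  have h7 : γ = 0 := (mul_eq_zero.mp h6).resolve_left hne
  apply hc
  rw [h4, h7, mul_zero]

theorem disc_of_real {c β γ : ℝ}
    (h : ∀ l : ℂ, (c : ℂ) + l * β + l ^ 2 * γ = 0 → l.im = 0) : 0 ≤ β ^ 2 - 4 * c * γ := by
  by_contra hneg
  push Not at hneg
  have hγ : γ ≠ 0 := by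
    rintro rfl
    nlinarith [sq_nonneg β]
  set D : ℝ := 4 * c * γ - β ^ 2 with hD
  have hDpos : 0 < D := by linarith
  set l : ℂ := ((-β / (2 * γ) : ℝ) : ℂ) + ((Real.sqrt D / (2 * γ) : ℝ) : ℂ) * Complex.I with hl
  have hre : l.re = -β / (2 * γ) := by
    rw [hl, Complex.add_re, Complex.ofReal_re, Complex.re_ofReal_mul, Complex.I_re]; ring
  have him : l.im = Real.sqrt D / (2 * γ) := by
    rw [hl, Complex.add_im, Complex.ofReal_im, Complex.im_ofReal_mul, Complex.I_im]; ring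
  have := h l (by
    apply Complex.ext
    · simp [pow_two, hre, him]
      field_simp
      nlinarith [Real.mul_self_sqrt hDpos.le]
    · simp [pow_two, hre, him]
      field_simp
      ring)
  rw [him] at this
  rcases div_eq_zero_iff.mp this with h1 | h1
  · exact absurd h1 (Real.sqrt_pos.mpr hDpos).ne'
  · apply hγ; linarith

theorem aeval_split {K : Type*} [CommRing K] [Algebra ℝ K] (m : ℕ) (c : ℝ)
    (b : Fin 2 ⊕ Fin m → ℝ) (S : Fin 2 ⊕ Fin m → Fin 2 ⊕ Fin m → ℝ) (a : Fin 2 ⊕ Fin m → K) :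
    aeval a (C c + ∑ i, C (b i) * X i + ∑ i, ∑ j, C (S i j) * (X i * X j) :
      MvPolynomial (Fin 2 ⊕ Fin m) ℝ) =
      algebraMap ℝ K c + ∑ i, algebraMap ℝ K (b i) * a i +
        ∑ i, ∑ j, algebraMap ℝ K (S i j) * (a i * a j) := by
  simp only [map_add, map_sum, map_mul, aeval_X, aeval_C]

/-- The data of a real zero polynomial `p(x, y)` of degree at most two. -/
theorem half (m : ℕ) (p : MvPolynomial (Fin 2 ⊕ Fin m) ℝ) (hp : RealZero p)
    (hd : p.totalDegree ≤ 2) :
    ∃ (c b0 b1 s00 s01 s11 : ℝ) (bY T0 T1 : Fin m → ℝ) (γ : (Fin 2 ⊕ Fin m → ℝ) → ℝ)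
      (Cy : (Fin m → ℝ) → ℝ), c ≠ 0 ∧
      (∀ (a : Fin 2 ⊕ Fin m → ℝ) (l : ℂ), aeval (fun i => l * (a i : ℂ)) p =
        (c : ℂ) + l * ((b0 * a (Sum.inl 0) + b1 * a (Sum.inl 1) + ∑ j, bY j * a (Sum.inr j) : ℝ) : ℂ)
          + l ^ 2 * (γ a : ℂ)) ∧
      (∀ (x : Fin 2 → ℝ) (l : ℂ), aeval (fun i => l * (x i : ℂ)) (resX m p) =
        (c : ℂ) + l * ((b0 * x 0 + b1 * x 1 : ℝ) : ℂ)
          + l ^ 2 * ((s00 * x 0 ^ 2 + 2 * s01 * x 0 * x 1 + s11 * x 1 ^ 2 : ℝ) : ℂ)) ∧
      (∀ a : Fin 2 ⊕ Fin m → ℝ,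
        (b0 * a (Sum.inl 0) + b1 * a (Sum.inl 1) + ∑ j, bY j * a (Sum.inr j)) ^ 2
          - 4 * c * γ a =
        (b0 ^ 2 - 4 * c * s00) * a (Sum.inl 0) ^ 2 +
        2 * (b0 * b1 - 4 * c * s01) * a (Sum.inl 0) * a (Sum.inl 1) +
        (b1 ^ 2 - 4 * c * s11) * a (Sum.inl 1) ^ 2 +
        2 * (((b0 ^ 2 - 4 * c * s00) * (∑ j, T0 j * a (Sum.inr j)) +
              (b0 * b1 - 4 * c * s01) * (∑ j, T1 j * a (Sum.inr j))) * a (Sum.inl 0) +
            ((b0 * b1 - 4 * c * s01) * (∑ j, T0 j * a (Sum.inr j)) +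
              (b1 ^ 2 - 4 * c * s11) * (∑ j, T1 j * a (Sum.inr j))) * a (Sum.inl 1)) +
        Cy (fun j => a (Sum.inr j))) ∧
      (∀ a : Fin 2 ⊕ Fin m → ℝ, 0 ≤
        (b0 * a (Sum.inl 0) + b1 * a (Sum.inl 1) + ∑ j, bY j * a (Sum.inr j)) ^ 2
          - 4 * c * γ a) := by
  obtain ⟨c, b, S, hS, hpe⟩ := normal_form p hd
  have hc : c ≠ 0 := by
    rintro rfl
    have := hp 0 Complex.I (by
      rw [hpe, aeval_split]; simp)
    simp at this
  set γ : (Fin 2 ⊕ Fin m → ℝ) → ℝ := fun a => ∑ i, ∑ j, S i j * (a i * a j) with hγ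
  have hev : ∀ (a : Fin 2 ⊕ Fin m → ℝ) (l : ℂ), aeval (fun i => l * (a i : ℂ)) p =
      (c : ℂ) + l * ((∑ i, b i * a i : ℝ) : ℂ) + l ^ 2 * (γ a : ℂ) := by
    intro a l
    rw [hpe, aeval_split]
    simp only [hγ, Complex.coe_algebraMap]
    push_cast
    simp only [Finset.mul_sum]
    congr 1
    · congr 1
      refine Finset.sum_congr rfl fun i _ => by ring
    · refine Finset.sum_congr rfl fun i _ => Finset.sum_congr rfl fun j _ => by ring
  have hdisc : ∀ a : Fin 2 ⊕ Fin m → ℝ, 0 ≤ (∑ i, b i * a i) ^ 2 - 4 * c * γ a := by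
    intro a
    apply disc_of_real
    intro l hl
    apply hp a l
    rw [hev a l, hl]
  have hsum : ∀ a : Fin 2 ⊕ Fin m → ℝ, ∑ i, b i * a i =
      b (Sum.inl 0) * a (Sum.inl 0) + b (Sum.inl 1) * a (Sum.inl 1) +
        ∑ j, b (Sum.inr j) * a (Sum.inr j) := by
    intro a
    rw [Fintype.sum_sum_type, Fin.sum_univ_two]
  have hγe : ∀ a : Fin 2 ⊕ Fin m → ℝ, γ a =
      S (Sum.inl 0) (Sum.inl 0) * a (Sum.inl 0) ^ 2 +
      2 * S (Sum.inl 0) (Sum.inl 1) * a (Sum.inl 0) * a (Sum.inl 1) +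
      S (Sum.inl 1) (Sum.inl 1) * a (Sum.inl 1) ^ 2 +
      2 * ((∑ j, S (Sum.inl 0) (Sum.inr j) * a (Sum.inr j)) * a (Sum.inl 0) +
        (∑ j, S (Sum.inl 1) (Sum.inr j) * a (Sum.inr j)) * a (Sum.inl 1)) +
      ∑ i, ∑ j, S (Sum.inr i) (Sum.inr j) * (a (Sum.inr i) * a (Sum.inr j)) := by
    intro a
    simp only [hγ]
    rw [Fintype.sum_sum_type, Fin.sum_univ_two]
    simp only [Fintype.sum_sum_type, Fin.sum_univ_two, Finset.sum_add_distrib]
    have e0 : ∀ i : Fin 2, ∑ j : Fin m, S (Sum.inr j) (Sum.inl i) * (a (Sum.inr j) * a (Sum.inl i))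
        = (∑ j, S (Sum.inl i) (Sum.inr j) * a (Sum.inr j)) * a (Sum.inl i) := by
      intro i
      rw [Finset.sum_mul]
      refine Finset.sum_congr rfl fun j _ => by rw [hS (Sum.inr j) (Sum.inl i)]; ring
    have e1 : ∀ i : Fin 2, ∑ j : Fin m, S (Sum.inl i) (Sum.inr j) * (a (Sum.inl i) * a (Sum.inr j))
        = (∑ j, S (Sum.inl i) (Sum.inr j) * a (Sum.inr j)) * a (Sum.inl i) := by
      intro i
      rw [Finset.sum_mul]
      refine Finset.sum_congr rfl fun j _ => by ring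
    rw [e0, e0, e1, e1, hS (Sum.inl 1) (Sum.inl 0)]
    ring
  -- the range condition
  have hT : ∀ j : Fin m, ∃ T0 T1 : ℝ,
      b (Sum.inl 0) * b (Sum.inr j) - 4 * c * S (Sum.inl 0) (Sum.inr j) =
        (b (Sum.inl 0) ^ 2 - 4 * c * S (Sum.inl 0) (Sum.inl 0)) * T0 +
        (b (Sum.inl 0) * b (Sum.inl 1) - 4 * c * S (Sum.inl 0) (Sum.inl 1)) * T1 ∧
      b (Sum.inl 1) * b (Sum.inr j) - 4 * c * S (Sum.inl 1) (Sum.inr j) =
        (b (Sum.inl 0) * b (Sum.inl 1) - 4 * c * S (Sum.inl 0) (Sum.inl 1)) * T0 +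
        (b (Sum.inl 1) ^ 2 - 4 * c * S (Sum.inl 1) (Sum.inl 1)) * T1 := by
    intro j
    apply range_two _ _ _ _ _ (b (Sum.inr j) ^ 2 - 4 * c * S (Sum.inr j) (Sum.inr j))
    intro x0 x1 s
    have h1 := hdisc (Sum.elim ![x0, x1] (Pi.single j s))
    rw [hsum, hγe] at h1
    have e1 : ∀ f : Fin m → ℝ, ∑ k, f k * (Pi.single j s : Fin m → ℝ) k = f j * s := by
      intro f
      rw [Finset.sum_eq_single j]
      · simp
      · intro k _ hk; simp [hk]
      · simp
    have e2 : ∑ i, ∑ k, S (Sum.inr i) (Sum.inr k) *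
        ((Pi.single j s : Fin m → ℝ) i * (Pi.single j s : Fin m → ℝ) k) =
        S (Sum.inr j) (Sum.inr j) * s ^ 2 := by
      rw [Finset.sum_eq_single j, Finset.sum_eq_single j]
      · rw [Pi.single_eq_same]; ring
      · intro k _ hk; simp [hk]
      · simp
      · intro k _ hk; simp [hk]
      · simp
    simp only [Sum.elim_inl, Sum.elim_inr, Matrix.cons_val_zero, Matrix.cons_val_one, e1, e2] at h1
    nlinarith [h1]
  choose T0 T1 hT0 hT1 using hT
  refine ⟨c, b (Sum.inl 0), b (Sum.inl 1), S (Sum.inl 0) (Sum.inl 0), S (Sum.inl 0) (Sum.inl 1),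
    S (Sum.inl 1) (Sum.inl 1), fun j => b (Sum.inr j), T0, T1, γ,
    fun y => (∑ j, b (Sum.inr j) * y j) ^ 2 -
      4 * c * ∑ i, ∑ j, S (Sum.inr i) (Sum.inr j) * (y i * y j), hc, ?_, ?_, ?_, ?_⟩
  · intro a l
    rw [hev a l, hsum a]
  · intro x l
    have h1 : aeval (fun i => l * (x i : ℂ)) (resX m p) =
        aeval (fun i => l * ((Sum.elim x (fun _ => 0) : Fin 2 ⊕ Fin m → ℝ) i : ℂ)) p := by
      have : (aeval (fun i => l * (x i : ℂ))).comp (resX m) =
          aeval (fun i => l * ((Sum.elim x (fun _ => 0) : Fin 2 ⊕ Fin m → ℝ) i : ℂ)) := by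
        apply MvPolynomial.algHom_ext
        rintro (i | j)
        · simp [resX]
        · simp [resX]
      rw [← this]; rfl
    rw [h1, hev, hsum, hγe]
    simp
  · intro a
    rw [hγe]
    have e0 : (b (Sum.inl 0) ^ 2 - 4 * c * S (Sum.inl 0) (Sum.inl 0)) * (∑ j, T0 j * a (Sum.inr j)) +
        (b (Sum.inl 0) * b (Sum.inl 1) - 4 * c * S (Sum.inl 0) (Sum.inl 1)) *
          (∑ j, T1 j * a (Sum.inr j)) =
        b (Sum.inl 0) * (∑ j, b (Sum.inr j) * a (Sum.inr j)) -
          4 * c * (∑ j, S (Sum.inl 0) (Sum.inr j) * a (Sum.inr j)) := by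
      rw [Finset.mul_sum, Finset.mul_sum, Finset.mul_sum, Finset.mul_sum, ← Finset.sum_add_distrib,
        ← Finset.sum_sub_distrib]
      refine Finset.sum_congr rfl fun j _ => ?_
      linear_combination (- a (Sum.inr j)) * hT0 j
    have e1 : (b (Sum.inl 0) * b (Sum.inl 1) - 4 * c * S (Sum.inl 0) (Sum.inl 1)) *
          (∑ j, T0 j * a (Sum.inr j)) +
        (b (Sum.inl 1) ^ 2 - 4 * c * S (Sum.inl 1) (Sum.inl 1)) * (∑ j, T1 j * a (Sum.inr j)) =
        b (Sum.inl 1) * (∑ j, b (Sum.inr j) * a (Sum.inr j)) -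
          4 * c * (∑ j, S (Sum.inl 1) (Sum.inr j) * a (Sum.inr j)) := by
      rw [Finset.mul_sum, Finset.mul_sum, Finset.mul_sum, Finset.mul_sum, ← Finset.sum_add_distrib,
        ← Finset.sum_sub_distrib]
      refine Finset.sum_congr rfl fun j _ => ?_
      linear_combination (- a (Sum.inr j)) * hT1 j
    rw [e0, e1]
    ring
  · intro a
    have := hdisc a
    rw [hsum] at this
    exact this
  
/-- The sum of `p`, `q` minus the common restriction, plus a bilinear term. -/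
noncomputable def glue (m n : ℕ) (p : MvPolynomial (Fin 2 ⊕ Fin m) ℝ)
    (q : MvPolynomial (Fin 2 ⊕ Fin n) ℝ) (N : Fin m → Fin n → ℝ) :
    MvPolynomial (Fin 2 ⊕ (Fin m ⊕ Fin n)) ℝ :=
  rename (Sum.elim Sum.inl (Sum.inr ∘ Sum.inl)) p +
    rename (Sum.elim Sum.inl (Sum.inr ∘ Sum.inr)) q - rename Sum.inl (resX m p) +
    ∑ j, ∑ k, C (N j k) * (X (Sum.inr (Sum.inl j)) * X (Sum.inr (Sum.inr k)))

theorem resY_glue (m n : ℕ) (p : MvPolynomial (Fin 2 ⊕ Fin m) ℝ)
    (q : MvPolynomial (Fin 2 ⊕ Fin n) ℝ) (N : Fin m → Fin n → ℝ) (h : resX m p = resX n q) :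
    resY m n (glue m n p q N) = p := by
  have h1 : (resY m n).comp (rename (Sum.elim Sum.inl (Sum.inr ∘ Sum.inl))) = AlgHom.id ℝ _ := by
    apply MvPolynomial.algHom_ext
    rintro (i | k) <;> simp [resY]
  have h2 : (resY m n).comp (rename (Sum.elim Sum.inl (Sum.inr ∘ Sum.inr))) =
      (rename Sum.inl).comp (resX n) := by
    apply MvPolynomial.algHom_ext
    rintro (i | k) <;> simp [resY, resX]
  have h3 : (resY m n).comp (rename Sum.inl) = rename Sum.inl := by
    apply MvPolynomial.algHom_ext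
    intro i
    simp [resY]
  have e1 : resY m n (rename (Sum.elim Sum.inl (Sum.inr ∘ Sum.inl)) p) = p :=
    DFunLike.congr_fun h1 p
  have e2 : resY m n (rename (Sum.elim Sum.inl (Sum.inr ∘ Sum.inr)) q) =
      rename Sum.inl (resX n q) := DFunLike.congr_fun h2 q
  have e3 : resY m n (rename Sum.inl (resX m p)) = rename Sum.inl (resX m p) :=
    DFunLike.congr_fun h3 _
  simp only [glue, map_add, map_sub, e1, e2, e3, map_sum, map_mul]
  rw [h]
  simp [resY]

theorem resZ_glue (m n : ℕ) (p : MvPolynomial (Fin 2 ⊕ Fin m) ℝ)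
    (q : MvPolynomial (Fin 2 ⊕ Fin n) ℝ) (N : Fin m → Fin n → ℝ) :
    resZ m n (glue m n p q N) = q := by
  have h1 : (resZ m n).comp (rename (Sum.elim Sum.inl (Sum.inr ∘ Sum.inr))) = AlgHom.id ℝ _ := by
    apply MvPolynomial.algHom_ext
    rintro (i | k) <;> simp [resZ]
  have h2 : (resZ m n).comp (rename (Sum.elim Sum.inl (Sum.inr ∘ Sum.inl))) =
      (rename Sum.inl).comp (resX m) := by
    apply MvPolynomial.algHom_ext
    rintro (i | k) <;> simp [resZ, resX]
  have h3 : (resZ m n).comp (rename Sum.inl) = rename Sum.inl := by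
    apply MvPolynomial.algHom_ext
    intro i
    simp [resZ]
  have e1 : resZ m n (rename (Sum.elim Sum.inl (Sum.inr ∘ Sum.inr)) q) = q :=
    DFunLike.congr_fun h1 q
  have e2 : resZ m n (rename (Sum.elim Sum.inl (Sum.inr ∘ Sum.inl)) p) =
      rename Sum.inl (resX m p) := DFunLike.congr_fun h2 p
  have e3 : resZ m n (rename Sum.inl (resX m p)) = rename Sum.inl (resX m p) :=
    DFunLike.congr_fun h3 _
  simp only [glue, map_add, map_sub, e1, e2, e3, map_sum, map_mul]
  simp [resZ]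

theorem aeval_glue (m n : ℕ) (p : MvPolynomial (Fin 2 ⊕ Fin m) ℝ)
    (q : MvPolynomial (Fin 2 ⊕ Fin n) ℝ) (N : Fin m → Fin n → ℝ)
    (a : Fin 2 ⊕ (Fin m ⊕ Fin n) → ℝ) (l : ℂ) :
    aeval (fun i => l * (a i : ℂ)) (glue m n p q N) =
      aeval (fun i => l * ((Sum.elim (fun i => a (Sum.inl i))
        (fun j => a (Sum.inr (Sum.inl j))) : Fin 2 ⊕ Fin m → ℝ) i : ℂ)) p +
      aeval (fun i => l * ((Sum.elim (fun i => a (Sum.inl i))
        (fun j => a (Sum.inr (Sum.inr j))) : Fin 2 ⊕ Fin n → ℝ) i : ℂ)) q -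
      aeval (fun i => l * ((a (Sum.inl i) : ℝ) : ℂ)) (resX m p) +
      l ^ 2 * ((∑ j, ∑ k, N j k * (a (Sum.inr (Sum.inl j)) * a (Sum.inr (Sum.inr k))) : ℝ) : ℂ) := by
  simp only [glue, map_add, map_sub, aeval_rename, map_sum, map_mul, aeval_X, aeval_C]
  congr 1
  · congr 1
    congr 1
    · congr 2
      funext i
      rcases i with i | i <;> rfl
    · congr 2
      funext i
      rcases i with i | i <;> rfl
  · push_cast
    simp only [Finset.mul_sum]
    refine Finset.sum_congr rfl fun j _ => Finset.sum_congr rfl fun k _ => ?_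
    simp only [Complex.coe_algebraMap]
    ring

theorem totalDegree_glue (m n d : ℕ) (p : MvPolynomial (Fin 2 ⊕ Fin m) ℝ)
    (q : MvPolynomial (Fin 2 ⊕ Fin n) ℝ) (N : Fin m → Fin n → ℝ) (hp : p.totalDegree ≤ d)
    (hq : q.totalDegree ≤ d) (hN : N = 0 ∨ 2 ≤ d) :
    (glue m n p q N).totalDegree ≤ d := by
  have hres : (resX m p).totalDegree ≤ d := by
    have h1 : rename (R := ℝ) (Sum.inl : Fin 2 → Fin 2 ⊕ Fin m) (resX m p) =
        aeval (Sum.elim (fun i => X (Sum.inl i)) (fun _ => 0)) p := by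
      have : (rename (R := ℝ) (Sum.inl : Fin 2 → Fin 2 ⊕ Fin m)).comp (resX m) =
          aeval (Sum.elim (fun i => X (Sum.inl i)) (fun _ => 0)) := by
        apply MvPolynomial.algHom_ext
        rintro (i | j) <;> simp [resX]
      rw [← this]; rfl
    unfold resX
    rw [aeval_def, eval₂_eq]
    apply totalDegree_finsetSum_le
    intro s hs
    refine (totalDegree_mul _ _).trans ?_
    have h2 : (algebraMap ℝ (MvPolynomial (Fin 2) ℝ) (coeff s p)).totalDegree = 0 := by
      rw [algebraMap_eq]; exact totalDegree_C _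
    rw [h2, zero_add]
    refine (totalDegree_finsetProd _ _).trans ?_
    refine le_trans (Finset.sum_le_sum (g := fun i => s i) fun i _ => ?_) ?_
    · refine (totalDegree_pow _ _).trans ?_
      rcases i with i | i
      · simp only [Sum.elim_inl]
        rw [totalDegree_X, mul_one]
      · simp
    · exact (le_totalDegree hs).trans hp
  unfold glue
  refine (totalDegree_add _ _).trans (max_le ?_ ?_)
  · refine (totalDegree_sub _ _).trans (max_le ?_ ?_)
    · refine (totalDegree_add _ _).trans (max_le ?_ ?_)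
      · exact (totalDegree_rename_le _ _).trans hp
      · exact (totalDegree_rename_le _ _).trans hq
    · exact (totalDegree_rename_le _ _).trans hres
  · rcases hN with hN | hN
    · subst hN
      simp
    · apply totalDegree_finsetSum_le
      intro j _
      apply totalDegree_finsetSum_le
      intro k _
      refine (totalDegree_mul _ _).trans ?_
      rw [totalDegree_C, zero_add]
      refine (totalDegree_mul _ _).trans ?_
      rw [totalDegree_X, totalDegree_X]
      exact hN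

/-- The quadratic case. -/
theorem amalgamation_two (m n : ℕ) : Amalgamation 2 m n := by
  intro p q hp hq hpd hqd h
  obtain ⟨c, b0, b1, s00, s01, s11, bY, T0, T1, γ, Cy, hc, hev, hx, hM, hpos⟩ := half m p hp hpd
  obtain ⟨c', b0', b1', s00', s01', s11', bZ, U0, U1, γ', Cz, hc', hev', hx', hM', hpos'⟩ :=
    half n q hq hqd
  -- the common restriction
  have hcomp : ∀ (x : Fin 2 → ℝ) (l : ℝ),
      c + l * (b0 * x 0 + b1 * x 1) + l ^ 2 * (s00 * x 0 ^ 2 + 2 * s01 * x 0 * x 1 + s11 * x 1 ^ 2)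
      = c' + l * (b0' * x 0 + b1' * x 1) +
        l ^ 2 * (s00' * x 0 ^ 2 + 2 * s01' * x 0 * x 1 + s11' * x 1 ^ 2) := by
    intro x l
    have h1 := hx x l
    have h2 := hx' x l
    rw [h, h2] at h1
    exact_mod_cast h1.symm
  have ec : c = c' := by simpa using hcomp 0 0
  subst ec
  have f1 := hcomp ![1, 0] 1
  have f2 := hcomp ![1, 0] (-1)
  have f3 := hcomp ![0, 1] 1
  have f4 := hcomp ![0, 1] (-1)
  have f5 := hcomp ![1, 1] 1
  simp only [Matrix.cons_val_zero, Matrix.cons_val_one] at f1 f2 f3 f4 f5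
  have g0 : b0' = b0 := by linarith
  have g1 : b1' = b1 := by linarith
  have g2 : s00' = s00 := by linarith
  have g3 : s11' = s11 := by linarith
  have g4 : s01' = s01 := by linarith
  subst g0 g1 g2 g3 g4
  set M00 := b0' ^ 2 - 4 * c * s00' with hM00
  set M01 := b0' * b1' - 4 * c * s01' with hM01
  set M11 := b1' ^ 2 - 4 * c * s11' with hM11
  set N : Fin m → Fin n → ℝ := fun j k => (bY j * bZ k -
    (M00 * T0 j * U0 k + M01 * T0 j * U1 k + M01 * T1 j * U0 k + M11 * T1 j * U1 k)) / (2 * c)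
    with hN
  refine ⟨glue m n p q N, ?_, totalDegree_glue m n 2 p q N hpd hqd (Or.inr le_rfl),
    resY_glue m n p q N h, resZ_glue m n p q N⟩
  intro a l hl
  rw [aeval_glue, hev, hev', hx] at hl
  set ap : Fin 2 ⊕ Fin m → ℝ := Sum.elim (fun i => a (Sum.inl i)) (fun j => a (Sum.inr (Sum.inl j)))
    with hap
  set aq : Fin 2 ⊕ Fin n → ℝ := Sum.elim (fun i => a (Sum.inl i)) (fun j => a (Sum.inr (Sum.inr j)))
    with haq
  set x0 := a (Sum.inl 0) with hx0
  set x1 := a (Sum.inl 1) with hx1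
  set y : Fin m → ℝ := fun j => a (Sum.inr (Sum.inl j)) with hy
  set z : Fin n → ℝ := fun j => a (Sum.inr (Sum.inr j)) with hz
  have k1 := hM ap
  have k2 := hM' aq
  have k3 := hM (Sum.elim ![-(∑ j, T0 j * y j), -(∑ j, T1 j * y j)] y)
  have k4 := hM' (Sum.elim ![-(∑ j, U0 j * z j), -(∑ j, U1 j * z j)] z)
  have p3 := hpos (Sum.elim ![-(∑ j, T0 j * y j), -(∑ j, T1 j * y j)] y)
  have p4 := hpos' (Sum.elim ![-(∑ j, U0 j * z j), -(∑ j, U1 j * z j)] z)
  have p5 := hpos (Sum.elim ![x0 + (∑ j, T0 j * y j) + (∑ j, U0 j * z j),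
    x1 + (∑ j, T1 j * y j) + (∑ j, U1 j * z j)] 0)
  have k5 := hM (Sum.elim ![x0 + (∑ j, T0 j * y j) + (∑ j, U0 j * z j),
    x1 + (∑ j, T1 j * y j) + (∑ j, U1 j * z j)] 0)
  have k6 := hM 0
  have hγ0 : γ 0 = 0 := by
    have q1 := hev 0 1
    have q2 := hev 0 (-1)
    have q3 := hev 0 0
    simp only [Pi.zero_apply, Complex.ofReal_zero, mul_zero, Finset.sum_const_zero, add_zero] at q1 q2 q3
    rw [q1] at q3
    have : (γ 0 : ℂ) = 0 := by linear_combination q3
    exact_mod_cast this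
  rw [k3] at p3
  rw [k4] at p4
  rw [k5] at p5
  simp only [hγ0, Pi.zero_apply, mul_zero, Finset.sum_const_zero, add_zero] at k6
  simp only [Sum.elim_inl, Sum.elim_inr, Matrix.cons_val_zero, Matrix.cons_val_one, Pi.zero_apply,
    mul_zero, Finset.sum_const_zero, add_zero] at p3 p4 p5
  have hap0 : ap (Sum.inl 0) = x0 := rfl
  have hap1 : ap (Sum.inl 1) = x1 := rfl
  have haq0 : aq (Sum.inl 0) = x0 := rfl
  have haq1 : aq (Sum.inl 1) = x1 := rfl
  have hapr : ∀ j, ap (Sum.inr j) = y j := fun _ => rfl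
  have haqr : ∀ j, aq (Sum.inr j) = z j := fun _ => rfl
  simp only [hap0, hap1, hapr] at k1
  simp only [haq0, haq1, haqr] at k2
  simp only [hap0, hap1, haq0, haq1, hapr, haqr] at hl
  set TY0 := ∑ j, T0 j * y j with hTY0
  set TY1 := ∑ j, T1 j * y j with hTY1
  set UZ0 := ∑ j, U0 j * z j with hUZ0
  set UZ1 := ∑ j, U1 j * z j with hUZ1
  set BY := ∑ j, bY j * y j with hBY
  set BZ := ∑ j, bZ j * z j with hBZ
  set NN : ℝ := ∑ j, ∑ k, N j k * (a (Sum.inr (Sum.inl j)) * a (Sum.inr (Sum.inr k))) with hNN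
  have hNNe : 4 * c * NN = 2 * (BY * BZ -
      (M00 * TY0 * UZ0 + M01 * TY0 * UZ1 + M01 * TY1 * UZ0 + M11 * TY1 * UZ1)) := by
    have e : NN = (BY * BZ -
      (M00 * (TY0 * UZ0) + M01 * (TY0 * UZ1) + M01 * (TY1 * UZ0) + M11 * (TY1 * UZ1))) / (2 * c) := by
      rw [hNN, hTY0, hTY1, hUZ0, hUZ1, hBY, hBZ]
      rw [Finset.sum_mul_sum, Finset.sum_mul_sum, Finset.sum_mul_sum, Finset.sum_mul_sum,
        Finset.sum_mul_sum]
      simp only [Finset.mul_sum, ← Finset.sum_add_distrib,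
        ← Finset.sum_sub_distrib, Finset.sum_div]
      refine Finset.sum_congr rfl fun j _ => Finset.sum_congr rfl fun k _ => ?_
      rw [hN]
      ring
    rw [e]
    field_simp
    ring
  apply real_of_disc (c := c) (β := b0' * x0 + b1' * x1 + BY + BZ)
    (γ := γ ap + γ' aq - (s00' * x0 ^ 2 + 2 * s01' * x0 * x1 + s11' * x1 ^ 2) + NN) hc (l := l)
  · have hy0 : (fun j : Fin m => (0 : Fin m → ℝ) j) = fun j => (0 : Fin 2 ⊕ Fin m → ℝ) (Sum.inr j) :=
      rfl
    have hC0 : Cy (fun j => (0 : Fin m → ℝ) j) = 0 := by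
      have : (0 : ℝ) ^ 2 = Cy fun j => 0 := by
        linarith [k6]
      have e2 : (fun j : Fin m => (0 : Fin m → ℝ) j) = fun _ => 0 := rfl
      rw [e2, ← this]; norm_num
    linarith [k1, k2, p3, p4, p5, hNNe, hC0]
  · rw [← hl]
    push_cast
    ring

theorem amalgamation_le_one (d m n : ℕ) (hd1 : d ≤ 1) : Amalgamation d m n := by
  intro p q hp hq hpd hqd h
  refine ⟨glue m n p q 0, ?_, totalDegree_glue m n d p q 0 hpd hqd (Or.inl rfl),
    resY_glue m n p q 0 h, resZ_glue m n p q 0⟩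
  have haff : ∀ (k : ℕ) (f : MvPolynomial (Fin 2 ⊕ Fin k) ℝ), f.totalDegree ≤ 1 →
      ∃ c : ℝ, ∀ a : Fin 2 ⊕ Fin k → ℝ, ∃ β : ℝ, ∀ l : ℂ,
        aeval (fun i => l * (a i : ℂ)) f = c + l * β := by
    intro k f hf
    refine ⟨coeff 0 f, fun a => ⟨aeval a (homogeneousComponent 1 f), fun l => ?_⟩⟩
    conv_lhs => rw [← sum_hc 1 f hf]
    rw [Finset.sum_range_succ, Finset.sum_range_succ, Finset.sum_range_zero, zero_add, map_add,
      homogeneousComponent_zero, aeval_C,
      aeval_scale _ 1 (homogeneousComponent_isHomogeneous 1 f)]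
    have : aeval (fun i => ((a i : ℝ) : ℂ)) (homogeneousComponent 1 f) =
        ((aeval a (homogeneousComponent 1 f) : ℝ) : ℂ) := by
      have := (MvPolynomial.aeval_algebraMap_apply (A := ℝ) (B := ℂ) a (homogeneousComponent 1 f))
      simpa [Function.comp_def] using this
    rw [this, pow_one]
    rfl
  obtain ⟨c, hc⟩ := haff m p (hpd.trans hd1)
  obtain ⟨c', hc'⟩ := haff n q (hqd.trans hd1)
  have hres : ∀ (x : Fin 2 → ℝ) (l : ℂ), aeval (fun i => l * (x i : ℂ)) (resX m p) =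
      aeval (fun i => l * ((Sum.elim x (fun _ => 0) : Fin 2 ⊕ Fin m → ℝ) i : ℂ)) p := by
    intro x l
    have : (aeval (fun i => l * (x i : ℂ))).comp (resX m) =
        aeval (fun i => l * ((Sum.elim x (fun _ => 0) : Fin 2 ⊕ Fin m → ℝ) i : ℂ)) := by
      apply MvPolynomial.algHom_ext
      rintro (i | j) <;> simp [resX]
    rw [← this]; rfl
  have hres' : ∀ (x : Fin 2 → ℝ) (l : ℂ), aeval (fun i => l * (x i : ℂ)) (resX n q) =
      aeval (fun i => l * ((Sum.elim x (fun _ => 0) : Fin 2 ⊕ Fin n → ℝ) i : ℂ)) q := by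
    intro x l
    have : (aeval (fun i => l * (x i : ℂ))).comp (resX n) =
        aeval (fun i => l * ((Sum.elim x (fun _ => 0) : Fin 2 ⊕ Fin n → ℝ) i : ℂ)) := by
      apply MvPolynomial.algHom_ext
      rintro (i | j) <;> simp [resX]
    rw [← this]; rfl
  have hcc : (c : ℂ) = c' := by
    have h1 := hres 0 0
    have h2 := hres' 0 0
    rw [h, h2] at h1
    obtain ⟨β, hβ⟩ := hc (Sum.elim 0 fun _ => 0)
    obtain ⟨β', hβ'⟩ := hc' (Sum.elim 0 fun _ => 0)
    rw [hβ, hβ'] at h1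
    simpa using h1.symm
  have hc0 : (c : ℂ) ≠ 0 := by
    intro h0
    obtain ⟨β, hβ⟩ := hc 0
    have h1 := hp 0 Complex.I
    have h2 : aeval (fun i => Complex.I * (((0 : Fin 2 ⊕ Fin m → ℝ) i : ℝ) : ℂ)) p =
        aeval (fun i => (0 : ℂ) * (((0 : Fin 2 ⊕ Fin m → ℝ) i : ℝ) : ℂ)) p := by
      simp
    rw [h2, hβ, h0] at h1
    simp at h1
  intro a l hl
  rw [aeval_glue, hres] at hl
  obtain ⟨β, hβ⟩ := hc (Sum.elim (fun i => a (Sum.inl i)) (fun j => a (Sum.inr (Sum.inl j))))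
  obtain ⟨β', hβ'⟩ := hc' (Sum.elim (fun i => a (Sum.inl i)) (fun j => a (Sum.inr (Sum.inr j))))
  obtain ⟨β'', hβ''⟩ := hc (Sum.elim (fun i => a (Sum.inl i)) (fun _ => 0))
  rw [hβ, hβ', hβ''] at hl
  simp only [Pi.zero_apply, zero_mul, Finset.sum_const_zero, Complex.ofReal_zero, mul_zero,
    add_zero] at hl
  have h3 : (c : ℂ) + l * ((β + β' - β'' : ℝ) : ℂ) = 0 := by
    rw [← hl, hcc]; push_cast; ring
  apply real_of_disc (c := c) (β := β + β' - β'') (γ := 0) (by exact_mod_cast hc0)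
    (by nlinarith [sq_nonneg (β + β' - β'')])
  simpa using h3

theorem totalDegree_parab {σ : Type*} (i j : σ) :
    (1 + X i - X j ^ 2 : MvPolynomial σ ℝ).totalDegree ≤ 2 := by
  refine (totalDegree_sub _ _).trans (max_le ?_ ?_)
  · refine (totalDegree_add _ _).trans (max_le ?_ ?_)
    · simp
    · simp [totalDegree_X]
  · exact (totalDegree_pow _ _).trans (by simp [totalDegree_X])

theorem totalDegree_two {σ : Type*} : (2 : MvPolynomial σ ℝ).totalDegree = 0 := by
  have : (2 : MvPolynomial σ ℝ) = C 2 := (map_ofNat C 2).symm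
  rw [this, totalDegree_C]

theorem totalDegree_four {σ : Type*} : (4 : MvPolynomial σ ℝ).totalDegree = 0 := by
  have : (4 : MvPolynomial σ ℝ) = C 4 := (map_ofNat C 4).symm
  rw [this, totalDegree_C]

theorem totalDegree_two_add_X {σ : Type*} (i : σ) :
    (2 + X i : MvPolynomial σ ℝ).totalDegree ≤ 1 := by
  refine (totalDegree_add _ _).trans (max_le ?_ ?_)
  · rw [totalDegree_two]; norm_num
  · simp [totalDegree_X]

theorem pex_totalDegree (m : ℕ) : (pex m).totalDegree ≤ 3 := by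
  unfold pex
  refine (totalDegree_mul _ _).trans ?_
  have h1 : (2 + X (Sum.inl 0) + X (Sum.inr 0) :
      MvPolynomial (Fin 2 ⊕ Fin (m + 1)) ℝ).totalDegree ≤ 1 := by
    refine (totalDegree_add _ _).trans (max_le (totalDegree_two_add_X _) ?_)
    simp [totalDegree_X]
  have h2 := totalDegree_parab (Sum.inl 0 : Fin 2 ⊕ Fin (m + 1)) (Sum.inl 1)
  omega

theorem qex_totalDegree (m : ℕ) : (qex m).totalDegree ≤ 3 := by
  unfold qex
  refine (totalDegree_add _ _).trans (max_le ?_ ?_)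
  · refine (totalDegree_mul _ _).trans ?_
    have h1 := totalDegree_two_add_X (Sum.inl 0 : Fin 2 ⊕ Fin (m + 1))
    have h2 := totalDegree_parab (Sum.inl 0 : Fin 2 ⊕ Fin (m + 1)) (Sum.inl 1)
    omega
  · refine (totalDegree_mul _ _).trans ?_
    have h1 : ((2 + X (Sum.inl 0)) ^ 2 - 4 * X (Sum.inl 1) ^ 2 :
        MvPolynomial (Fin 2 ⊕ Fin (m + 1)) ℝ).totalDegree ≤ 2 := by
      refine (totalDegree_sub _ _).trans (max_le ?_ ?_)
      · exact (totalDegree_pow _ _).trans (by
          have := totalDegree_two_add_X (Sum.inl 0 : Fin 2 ⊕ Fin (m + 1))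
          omega)
      · refine (totalDegree_mul _ _).trans ?_
        rw [totalDegree_four, zero_add]
        exact (totalDegree_pow _ _).trans (by simp [totalDegree_X])
    rw [totalDegree_X]
    omega

/-- The version of `Amalgamation` without a bound for the degree of the amalgam. -/
def WeakAmalgamation (d m n : ℕ) : Prop :=
  ∀ (p : MvPolynomial (Fin 2 ⊕ Fin m) ℝ) (q : MvPolynomial (Fin 2 ⊕ Fin n) ℝ),
    RealZero p → RealZero q → p.totalDegree ≤ d → q.totalDegree ≤ d → resX m p = resX n q →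
    ∃ r : MvPolynomial (Fin 2 ⊕ (Fin m ⊕ Fin n)) ℝ,
      RealZero r ∧ resY m n r = p ∧ resZ m n r = q

theorem of_weak (d m n : ℕ) (h : WeakAmalgamation d m n) : d ≤ 2 ∨ m = 0 ∨ n = 0 := by
  by_contra hcon
  push Not at hcon
  obtain ⟨hd, hm, hn⟩ := hcon
  obtain ⟨m, rfl⟩ := Nat.exists_eq_succ_of_ne_zero hm
  obtain ⟨n, rfl⟩ := Nat.exists_eq_succ_of_ne_zero hn
  obtain ⟨r, hr, h1, h2⟩ := h (pex m) (qex n) (pex_realZero m) (qex_realZero n)
    ((pex_totalDegree m).trans (by omega)) ((qex_totalDegree n).trans (by omega))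
    (by simp only [resX, pex, qex, map_mul, map_add, map_sub, map_pow, map_one, aeval_X,
          map_ofNat, Sum.elim_inl, Sum.elim_inr, add_zero, zero_mul])
  exact no_amalgam hr h1 h2

theorem weak_of_amalgamation (d m n : ℕ) (h : Amalgamation d m n) : WeakAmalgamation d m n := by
  intro p q hp hq hpd hqd hpq
  obtain ⟨r, hr, _, h1, h2⟩ := h p q hp hq hpd hqd hpq
  exact ⟨r, hr, h1, h2⟩

theorem amalgamation_of (d m n : ℕ) (h : d ≤ 2 ∨ m = 0 ∨ n = 0) : Amalgamation d m n := by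
  rcases h with h | h | h
  · rcases Nat.lt_or_ge d 2 with h2 | h2
    · exact amalgamation_le_one d m n (by omega)
    · obtain rfl : d = 2 := by omega
      exact amalgamation_two m n
  · subst h; exact amalgamation_m_zero d n
  · subst h; exact amalgamation_n_zero d m

end Pool.Agent.V5helper90.RZ
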